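import Pool.Agent.Lib.MP_e2257e_gt.B.Stmts

/-!
# MP_e2257e_gt : in rich worlds `G` has the almost sure properties
-/

set_option autoImplicit false

open Filter

namespace Pool.Agent.CW

namespace Ae_

theorem data {P : Type} [Preorder P] [Nonempty P] (A : Set (Set P)) :
    ∃ (D : ℕ → Set P) (c : ℕ → P), (∀ n, Dn (D n)) ∧
      ((∀ᶠ G in gen P, G ∈ A) → ∀ G : Set P, G.Nonempty →
        (∀ p ∈ G, ∀ q ∈ G, ∃ r ∈ G, r ≤ p ∧ r ≤ q) → (∀ n, ∃ p ∈ G, p ∈ D n) →
        (∀ n, ∀ p ∈ G, p ≤ c n → c n ∈ G) → G ∈ A) := by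
  classical
  by_cases hA : ∀ᶠ G in gen P, G ∈ A
  · obtain ⟨𝒟, C, h1, h2, h3, h4⟩ :
        ∃ (𝒟 : Set (Set P)) (C : Set P), 𝒟.Countable ∧ C.Countable ∧ (∀ D ∈ 𝒟, Dn D) ∧
          ∀ G, Suff 𝒟 C G → G ∈ A := hA
    obtain ⟨f, hf⟩ := Set.countable_iff_exists_subset_range.1 h1
    obtain ⟨c, hc⟩ := Set.countable_iff_exists_subset_range.1 h2
    refine ⟨fun n => if Dn (f n) then f n else Set.univ, c, fun n => ?_,
      fun _ G hne hdir hm hup => h4 G ⟨hne, hdir, ?_, ?_⟩⟩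
    · by_cases h : Dn (f n)
      · simpa only [if_pos h] using h
      · simp only [if_neg h]
        exact fun p => ⟨p, le_rfl, trivial⟩
    · intro D hD
      obtain ⟨n, rfl⟩ := hf hD
      obtain ⟨p, hp, hp'⟩ := hm n
      simp only [if_pos (h3 _ hD)] at hp'
      exact ⟨p, hp, hp'⟩
    · intro q hq p hp hpq
      obtain ⟨n, rfl⟩ := hc hq
      exact hup n p hp hpq
  · exact ⟨fun _ => Set.univ, fun _ => Classical.arbitrary P, fun n p => ⟨p, le_rfl, trivial⟩,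
      fun h => absurd h hA⟩

end Ae_

theorem ae_proof : S_ae := by
  intro P J _ S
  by_cases hP : Nonempty P
  · choose D c hD hc using fun l : List (Obj P J) => Ae_.data (S l)
    refine ((Ev.all (fun n : ℕ => ev_dense (J := J) (fun l => D l n))).and
      ((Ev.all (fun n : ℕ => ev_fun (P := P) (J := J) (fun l => .cn (c l n)))).and
        (ev_up.and (ev_dir.and ev_ne)))).mono ?_
    rintro M G ⟨h1, h2, h3, h4, h5⟩ l hl hA
    exact hc l hA G h5 h4 (fun n => h1 n l hl (hD l n))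
      (fun n p hp hpc => h3 p hp (c l n) (h2 n l hl) hpc)
  · refine (ev_ne (P := P) (J := J)).mono ?_
    rintro M G ⟨p, _⟩
    exact absurd ⟨p⟩ hP

end Pool.Agent.CW
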