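import Pool.Agent.Lib.MP_e2257e_gt.B.Stmts

/-!
# MP_e2257e_gt : piece B3 (decision of measurable sets by conditions of a complete suborder)
-/

set_option autoImplicit false

open Filter

namespace Pool.Agent.CW

theorem dec_proof (h1 : S_gen) (h2 : S_loc) : S_dec := by
  intro P _ hccc S res hS A hA
  obtain ⟨hci, -, -, hup, hdir, -⟩ := h1 P
  have hmono : ∀ (A : Set (Set P)) (p q : P), q ≤ p → Frc A p → Frc A q := by
    intro A p q hqp hp
    filter_upwards [hup q p hqp, hp] with G hG1 hG2 hq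
    exact hG2 (hG1 hq)
  refine MeasurableSpace.generateFrom_induction
    {A : Set (Set P) | ∃ p ∈ S, A = {G | p ∈ G}}
    (fun t _ => ∀ p ∈ S, ∃ q ∈ S, q ≤ p ∧ (Frc t q ∨ Frc tᶜ q)) ?_ ?_ ?_ ?_ A hA
  · rintro t ⟨p0, hp0, rfl⟩ _ p hp
    by_cases hr : ∃ r, r ≤ p ∧ r ≤ p0
    · obtain ⟨r, hrp, hrp0⟩ := hr
      refine ⟨res r, hS.mem r, (hS.mono r p hrp).trans (hS.id p hp), Or.inl ?_⟩
      exact hup (res r) p0 ((hS.mono r p0 hrp0).trans (hS.id p0 hp0))
    · refine ⟨p, hp, le_rfl, Or.inr ?_⟩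
      filter_upwards [hdir] with G hG hpG hp0G
      obtain ⟨r, _, hr1, hr2⟩ := hG p hpG p0 hp0G
      exact hr ⟨r, hr1, hr2⟩
  · intro p hp
    exact ⟨p, hp, le_rfl, Or.inr (Eventually.of_forall fun G _ h => h)⟩
  · intro t _ ih p hp
    obtain ⟨q, hq, hqp, h⟩ := ih p hp
    refine ⟨q, hq, hqp, ?_⟩
    rcases h with h | h
    · right; rwa [compl_compl]
    · left; exact h
  · intro s _ ih p hp
    by_cases h : ∃ q ∈ S, q ≤ p ∧ ∃ n, Frc (s n) q
    · obtain ⟨q, hq, hqp, n, hn⟩ := h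
      refine ⟨q, hq, hqp, Or.inl ?_⟩
      filter_upwards [hn] with G hG hqG
      exact Set.mem_iUnion.2 ⟨n, hG hqG⟩
    · refine ⟨p, hp, le_rfl, Or.inr ?_⟩
      have h3 : ∀ n, Frc (s n)ᶜ p := by
        intro n
        refine (h2 P hccc).1 (s n)ᶜ p fun q hqp => ?_
        have hle : res q ≤ p := (hS.mono q p hqp).trans (hS.id p hp)
        obtain ⟨q', hq'S, hq', h4⟩ := ih n (res q) (hS.mem q)
        rcases h4 with h4 | h4
        · exact absurd ⟨q', hq'S, hq'.trans hle, n, h4⟩ h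
        · obtain ⟨r, hr1, hr2⟩ := hS.amal q q' hq'S hq'
          exact ⟨r, hr1, hmono _ _ _ hr2 h4⟩
      have h5 : ∀ᶠ G in gen P, ∀ n, p ∈ G → G ∈ (s n)ᶜ := eventually_countable_forall.2 h3
      filter_upwards [h5] with G hG hpG hmem
      obtain ⟨n, hn⟩ := Set.mem_iUnion.1 hmem
      exact hG n hpG hn

end Pool.Agent.CW
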