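import Pool.Agent.Lib.MP_e2257e_gt.B.Stmts

/-!
# MP_e2257e_gt : decision of natural numbers (piece DecN)
-/

set_option autoImplicit false

open Filter

namespace Pool.Agent.CW

private theorem frc_mono (h1 : S_gen) {P : Type} [Preorder P] (A : Set (Set P)) (p q : P)
    (hq : q ≤ p) (h : Frc A p) : Frc A q := by
  have h4 := (h1 P).2.2.2.1 q p hq
  unfold Frc at h ⊢
  filter_upwards [h, h4] with G hG hG' hp
  exact hG (hG' hp)

private theorem frc_contra (h1 : S_gen) {P : Type} [Preorder P] (A : Set (Set P)) (p : P)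
    (h : Frc A p) (h' : Frc Aᶜ p) : False := by
  have h4 := (h1 P).2.1 {G | p ∈ G → False} (by
    unfold Frc at h h'
    filter_upwards [h, h'] with G hG hG' hp
    exact hG' hp (hG hp)) p
  obtain ⟨G, hG, hG'⟩ := h4
  exact hG' hG

private theorem sub_univ (P : Type) [Preorder P] : Sub (Set.univ : Set P) (fun p => p) where
  mem _ := trivial
  le _ := le_rfl
  mono _ _ h := h
  id _ _ := le_rfl
  amal _ q _ h := ⟨q, h, le_rfl⟩

theorem decN_proof (h1 : S_gen) (h2 : S_loc) (h3 : S_dec) : S_decN := by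
  intro P _ hP
  have hd : ∀ A, MS Set.univ A → ∀ p : P, ∃ q ≤ p, Frc A q ∨ Frc Aᶜ q := by
    intro A hA p
    obtain ⟨q, _, hq, h⟩ := h3 P hP Set.univ _ (sub_univ P) A hA p trivial
    exact ⟨q, hq, h⟩
  refine ⟨?_, hd, ?_, frc_contra h1, frc_mono h1⟩
  · intro S res hS g hg n p hp
    by_contra hcon
    have hk : ∀ k, Frc {G | g G n = k}ᶜ p := by
      intro k
      refine (h2 P hP).1 _ p ?_
      intro q hq
      obtain ⟨q', hq'S, hq', hor⟩ := h3 P hP S res hS _ (hg n k) (res q) (hS.mem q)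
      rcases hor with hor | hor
      · exact (hcon ⟨q', hq'S, (hq'.trans (hS.mono q p hq)).trans (hS.id p hp), k, hor⟩).elim
      · obtain ⟨r, hr, hr'⟩ := hS.amal q q' hq'S hq'
        exact ⟨r, hr, frc_mono h1 _ _ _ hr' hor⟩
    have := (h1 P).1
    have hall : ∀ᶠ G in gen P, ∀ k, p ∈ G → G ∈ ({G | g G n = k} : Set (Set P))ᶜ :=
      eventually_countable_forall.2 hk
    obtain ⟨G, hG, hG'⟩ := (h1 P).2.1 {G | ∀ k, p ∈ G → G ∈ ({G | g G n = k} : Set (Set P))ᶜ}
      hall p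
    exact hG' (g G n) hG rfl
  · intro A hA p hp
    have h4 : ∃ q ≤ p, ∀ r ≤ q, ¬ Frc A r := by
      by_contra hcon
      refine hp ((h2 P hP).1 A p ?_)
      intro q hq
      by_contra hcon2
      refine hcon ⟨q, hq, fun r hr h => hcon2 ⟨r, hr, h⟩⟩
    obtain ⟨q, hq, hqr⟩ := h4
    obtain ⟨r, hr, hor⟩ := hd A hA q
    rcases hor with hor | hor
    · exact (hqr r hr hor).elim
    · exact ⟨r, hr.trans hq, hor⟩

end Pool.Agent.CW
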