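import Pool.Agent.Lib.MP_e2257e_gt.B.Stmts

/-!
# MP_e2257e_gt : locality of forcing under ccc (piece B2)
-/

set_option autoImplicit false

open Filter

namespace Pool.Agent.CW

namespace Loc_

variable {P : Type} [Preorder P]

/-- maximal antichains -/
theorem maxanti (X : Set P) : ∃ W ⊆ X, (∀ p ∈ W, ∀ q ∈ W, p ≠ q → ¬ ∃ r, r ≤ p ∧ r ≤ q) ∧
    ∀ x ∈ X, ∃ w ∈ W, ∃ r, r ≤ x ∧ r ≤ w := by
  obtain ⟨W, hW⟩ := zorn_subset
    {W : Set P | W ⊆ X ∧ ∀ p ∈ W, ∀ q ∈ W, p ≠ q → ¬ ∃ r, r ≤ p ∧ r ≤ q} (by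
      intro c hc hch
      refine ⟨⋃₀ c, ⟨Set.sUnion_subset fun s hs => (hc hs).1, ?_⟩,
        fun s hs => Set.subset_sUnion_of_mem hs⟩
      rintro p ⟨s, hs, hp⟩ q ⟨t, ht, hq⟩ hpq
      rcases hch.total hs ht with h | h
      · exact (hc ht).2 p (h hp) q hq hpq
      · exact (hc hs).2 p hp q (h hq) hpq)
  refine ⟨W, hW.prop.1, hW.prop.2, fun x hx => ?_⟩
  by_contra hno
  push Not at hno
  have hins : insert x W ∈
      {W : Set P | W ⊆ X ∧ ∀ p ∈ W, ∀ q ∈ W, p ≠ q → ¬ ∃ r, r ≤ p ∧ r ≤ q} := by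
    refine ⟨Set.insert_subset hx hW.prop.1, ?_⟩
    rintro p (rfl | hp) q (rfl | hq) hpq ⟨r, h1, h2⟩
    · exact hpq rfl
    · exact hno q hq r h1 h2
    · exact hno p hp r h2 h1
    · exact hW.prop.2 p hp q hq hpq ⟨r, h1, h2⟩
  have hle := hW.le_of_ge hins (Set.subset_insert x W)
  exact hno x (hle (Set.mem_insert x W)) x le_rfl le_rfl

theorem up_one (w : P) : ∀ᶠ G in gen P, ∀ q ∈ G, q ≤ w → w ∈ G :=
  ⟨∅, {w}, Set.countable_empty, Set.countable_singleton w, fun _ h => h.elim,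
    fun _ hG q hq hqw => hG.up w rfl q hq hqw⟩

end Loc_

theorem loc_proof (h : S_gen) : S_loc := by
  intro P _ hccc
  obtain ⟨hCI, -, hdense, -, hdir, -⟩ := h P
  have key : ∀ (A : Set (Set P)) (W : Set P), W.Countable → (∀ w ∈ W, Frc A w) →
      ∀ᶠ G in gen P, ∀ w ∈ W, (w ∈ G → G ∈ A) ∧ ∀ q ∈ G, q ≤ w → w ∈ G := by
    intro A W hW hA
    exact (eventually_countable_ball hW).mpr fun w hw => (hA w hw).and (Loc_.up_one w)
  refine ⟨fun A p hp => ?_, fun A hA => ?_⟩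
  · obtain ⟨W, hWX, hWa, hWm⟩ := Loc_.maxanti {r : P | r ≤ p ∧ Frc A r}
    have hWc := hccc W hWa
    have hD : Dn {q : P | (∃ w ∈ W, q ≤ w) ∨ ¬ ∃ r, r ≤ q ∧ r ≤ p} := by
      intro q
      by_cases hq : ∃ r, r ≤ q ∧ r ≤ p
      · obtain ⟨r, h1, h2⟩ := hq
        obtain ⟨r', h3, h4⟩ := hp r h2
        obtain ⟨w, hw, s, h5, h6⟩ := hWm r' ⟨h3.trans h2, h4⟩
        exact ⟨s, h5.trans (h3.trans h1), Or.inl ⟨w, hw, h6⟩⟩
      · exact ⟨q, le_rfl, Or.inr hq⟩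
    filter_upwards [hdense _ hD, hdir, key A W hWc fun w hw => (hWX hw).2] with G h1 h2 h3 hpG
    obtain ⟨q, hqG, hq⟩ := h1
    rcases hq with ⟨w, hw, hqw⟩ | hq
    · exact (h3 w hw).1 ((h3 w hw).2 q hqG hqw)
    · obtain ⟨r, -, h4, h5⟩ := h2 q hqG p hpG
      exact absurd ⟨r, h4, h5⟩ hq
  · obtain ⟨W, hWX, hWa, hWm⟩ := Loc_.maxanti {r : P | Frc A r}
    have hWc := hccc W hWa
    have hD : Dn {q : P | ∃ w ∈ W, q ≤ w} := by
      intro q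
      obtain ⟨r, h1, h2⟩ := hA q
      obtain ⟨w, hw, s, h5, h6⟩ := hWm r h2
      exact ⟨s, h5.trans h1, w, hw, h6⟩
    filter_upwards [hdense _ hD, key A W hWc fun w hw => hWX hw] with G h1 h3
    obtain ⟨q, hqG, w, hw, hqw⟩ := h1
    exact (h3 w hw).1 ((h3 w hw).2 q hqG hqw)

end Pool.Agent.CW
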