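import Pool.Agent.Lib.MP_e2257e_gt.B.Stmts

/-!
# MP_e2257e_gt : measurable real functions
-/

set_option autoImplicit false

namespace Pool.Agent.CW

theorem mr_proof : S_mr := by
  intro P _ S f
  constructor
  · intro h
    refine measurable_of_Iio (mδ := Flt S) (fun x => ?_)
    have e : f ⁻¹' Set.Iio x = ⋃ a : {a : ℚ // (a : ℝ) ≤ x}, {G | f G < (a.1 : ℝ)} := by
      ext G
      simp only [Set.mem_preimage, Set.mem_Iio, Set.mem_iUnion, Set.mem_ofPred_eq]
      constructor
      · intro hx
        obtain ⟨a, h1, h2⟩ := exists_rat_btwn hx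
        exact ⟨⟨a, h2.le⟩, h1⟩
      · rintro ⟨a, ha⟩
        exact ha.trans_le a.2
    rw [e]
    exact @MeasurableSet.iUnion (Set P) _ (Flt S) _ _ (fun a => h a.1)
  · intro h a
    exact h measurableSet_Iio

end Pool.Agent.CW
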