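import Pool.Agent.Lib.MP_e2257e_gt.B.Stmts

/-!
# MP_e2257e_gt : piece B6 (measurable sets in rich worlds)
-/

set_option autoImplicit false

open Filter

namespace Pool.Agent.CW

/-- the sets `{G | p ∈ G → G ∈ T l}` for the list `cn p :: l` -/
private def Msw_sh {P J : Type} (T : List (Obj P J) → Set (Set P)) :
    List (Obj P J) → Set (Set P)
  | .cn p :: l => {G | p ∈ G → G ∈ T l}
  | _ => Set.univ

private theorem Msw_ev (h2 : S_ae) (P J : Type) [Preorder P]
    (T : List (Obj P J) → Set (Set P)) :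
    Ev (fun (M : Set (Obj P J)) G => ∀ l, (∀ x ∈ l, x ∈ M) → ∀ p ∈ G, Frc (T l) p → G ∈ T l) := by
  refine ((h2 P J (Msw_sh T)).and ev_sub).mono ?_
  rintro M G ⟨h, hs⟩ l hl p hp hF
  have h3 := h (.cn p :: l) (by
    intro x hx
    rcases List.mem_cons.1 hx with rfl | hx
    · exact hs p hp
    · exact hl x hx) hF
  exact h3 hp

theorem ms_proof (h1 : S_decN) (h2 : S_ae) : S_ms := by
  intro P J _ hccc S
  have hd := (h1 P hccc).2.1
  refine ((Msw_ev h2 P J S).and ((Msw_ev h2 P J (fun l => (S l)ᶜ)).and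
    (ev_dense (J := J) (fun l => {p : P | Frc (S l) p ∨ Frc (S l)ᶜ p})))).mono ?_
  rintro M G ⟨h3, h4, h5⟩ l hl
  refine ⟨fun hm hG => ?_, fun p hp hF => h3 l hl p hp hF⟩
  obtain ⟨s, hs, hs'⟩ := h5 l hl (fun p => hd (S l) hm p)
  rcases hs' with hs' | hs'
  · exact ⟨s, hs, hs'⟩
  · exact absurd hG (h4 l hl s hs hs')

end Pool.Agent.CW
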