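import Pool.Agent.Lib.MP_e2257e_gt.B.Stmts

/-!
# MP_e2257e_gt : reading of answers by measurable names (piece B7)
-/

set_option autoImplicit false

open Filter

namespace Pool.Agent.CW

open Pool.Agent.CR (V Fml Nm Memf Eqf Fr natN pairN val Mod nat rat cut Hull GenF RN)

namespace Readw_

/-- a countable subset which is predense below every element of `X` -/
theorem pre {P : Type} [Preorder P] (hc : CCC P) (X : Set P) :
    ∃ W ⊆ X, W.Countable ∧ ∀ q, (∃ x ∈ X, q ≤ x) → ∃ r ≤ q, ∃ w ∈ W, r ≤ w := by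
  obtain ⟨A, hA⟩ := zorn_subset {A : Set P | (∀ a ∈ A, ∃ x ∈ X, a ≤ x) ∧
    ∀ p ∈ A, ∀ q ∈ A, p ≠ q → ¬ ∃ r, r ≤ p ∧ r ≤ q} (by
    intro c hcS hch
    refine ⟨⋃₀ c, ⟨?_, ?_⟩, fun s hs => Set.subset_sUnion_of_mem hs⟩
    · rintro a ⟨s, hs, has⟩
      exact (hcS hs).1 a has
    · rintro p ⟨s, hs, hps⟩ q ⟨t, ht, hqt⟩ hpq
      rcases hch.total hs ht with h | h
      · exact (hcS ht).2 p (h hps) q hqt hpq
      · exact (hcS hs).2 p hps q (h hqt) hpq)
  have hA1 := hA.prop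
  have hcnt : A.Countable := hc A hA1.2
  have hx : ∀ a : P, ∃ x, a ∈ A → x ∈ X ∧ a ≤ x := by
    intro a
    by_cases ha : a ∈ A
    · obtain ⟨x, h1, h2⟩ := hA1.1 a ha
      exact ⟨x, fun _ => ⟨h1, h2⟩⟩
    · exact ⟨a, fun h => absurd h ha⟩
  choose f hf using hx
  refine ⟨f '' A, ?_, hcnt.image f, ?_⟩
  · rintro _ ⟨a, ha, rfl⟩
    exact (hf a ha).1
  · intro q hq
    by_contra hcon
    have hinc : ∀ a ∈ A, ¬ ∃ r, r ≤ q ∧ r ≤ a := by
      rintro a ha ⟨r, h1, h2⟩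
      exact hcon ⟨r, h1, f a, ⟨a, ha, rfl⟩, h2.trans (hf a ha).2⟩
    have hins : insert q A ∈ {A : Set P | (∀ a ∈ A, ∃ x ∈ X, a ≤ x) ∧
        ∀ p ∈ A, ∀ q ∈ A, p ≠ q → ¬ ∃ r, r ≤ p ∧ r ≤ q} := by
      constructor
      · rintro a (rfl | ha)
        · exact hq
        · exact hA1.1 a ha
      · rintro a (rfl | ha) b (rfl | hb) hab
        · exact absurd rfl hab
        · exact hinc b hb
        · rintro ⟨r, h1, h2⟩
          exact hinc a ha ⟨r, h2, h1⟩
        · exact hA1.2 a ha b hb hab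
    have hle : insert q A ⊆ A := hA.le_of_ge hins (Set.subset_insert q A)
    have hqA : q ∈ A := hle (Set.mem_insert q A)
    exact hinc q hqA ⟨q, le_rfl, le_rfl⟩

/-- enumeration of answers -/
theorem enum {P : Type} [Preorder P] [Nonempty P] (hc : CCC P) (R : ℕ → P → Prop) :
    ∃ (w : ℕ → P) (v : ℕ → ℕ), (∃ p k, R k p) → (∀ i, R (v i) (w i)) ∧
      ∀ q, (∃ x, (∃ k, R k x) ∧ q ≤ x) → ∃ r ≤ q, ∃ i, r ≤ w i := by
  by_cases h : ∃ p k, R k p
  · obtain ⟨W, h1, h2, h3⟩ := pre hc {p | ∃ k, R k p}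
    obtain ⟨p, k, hk⟩ := h
    obtain ⟨_, _, w0, hw0, _⟩ := h3 p ⟨p, ⟨k, hk⟩, le_rfl⟩
    obtain ⟨w, hw⟩ := h2.exists_eq_range ⟨w0, hw0⟩
    have h4 : ∀ i, ∃ k, R k (w i) := fun i => h1 (hw ▸ Set.mem_range_self i)
    choose v hv using h4
    refine ⟨w, v, fun _ => ⟨hv, fun q hq => ?_⟩⟩
    obtain ⟨r, h5, w', h6, h7⟩ := h3 q (by
      obtain ⟨x, hx1, hx2⟩ := hq
      exact ⟨x, hx1, hx2⟩)
    rw [hw] at h6
    obtain ⟨i, rfl⟩ := h6
    exact ⟨r, h5, i, h7⟩
  · exact ⟨fun _ => Classical.arbitrary P, fun _ => 0, fun h' => absurd h' h⟩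

end Readw_

open Readw_

theorem read_proof : S_read := by
  classical
  intro P J _ hc R
  rcases isEmpty_or_nonempty P with hP | hP
  · refine ⟨fun _ _ _ => 0, fun l n k => ?_, ev_ne.mono fun M G hG => ?_⟩
    · exact @MeasurableSet.const _ (Flt Set.univ) (0 = k)
    · obtain ⟨p, _⟩ := hG
      exact hP.elim p
  have hen := fun (l : List (Obj P J)) (n : ℕ) => enum hc (R l n)
  choose w v hwv using hen
  refine ⟨fun l G n => if h : ∃ i, w l n i ∈ G then v l n (Nat.find h) else 0, ?_, ?_⟩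
  · intro l n k
    have hm : ∀ p : P, MS Set.univ {G : Set P | p ∈ G} := fun p =>
      MeasurableSpace.measurableSet_generateFrom ⟨p, trivial, rfl⟩
    have heq : {G : Set P | (if h : ∃ i, w l n i ∈ G then v l n (Nat.find h) else 0) = k} =
        (⋃ i, (({G : Set P | w l n i ∈ G} ∩ ⋂ j : Fin i, {G : Set P | w l n j ∈ G}ᶜ) ∩
          {_G : Set P | v l n i = k})) ∪
        ((⋂ j, {G : Set P | w l n j ∈ G}ᶜ) ∩ {_G : Set P | 0 = k}) := by
      ext G
      simp only [Set.mem_ofPred_eq, Set.mem_union, Set.mem_iUnion, Set.mem_inter_iff,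
        Set.mem_iInter, Set.mem_compl_iff]
      by_cases h : ∃ i, w l n i ∈ G
      · rw [dif_pos h]
        constructor
        · intro hk
          exact Or.inl ⟨Nat.find h, ⟨Nat.find_spec h, fun j => Nat.find_min h j.2⟩, hk⟩
        · rintro (⟨i, ⟨h1, h2⟩, h3⟩ | ⟨h1, _⟩)
          · have : Nat.find h = i := (Nat.find_eq_iff h).2 ⟨h1, fun j hj => h2 ⟨j, hj⟩⟩
            rw [this]
            exact h3
          · obtain ⟨i, hi⟩ := h
            exact absurd hi (h1 i)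
      · rw [dif_neg h]
        constructor
        · intro hk
          exact Or.inr ⟨fun j hj => h ⟨j, hj⟩, hk⟩
        · rintro (⟨i, ⟨h1, _⟩, _⟩ | ⟨_, h2⟩)
          · exact absurd ⟨i, h1⟩ h
          · exact h2
    change MS Set.univ {G : Set P | (if h : ∃ i, w l n i ∈ G then v l n (Nat.find h) else 0) = k}
    rw [heq]
    unfold MS at hm ⊢
    let _ : MeasurableSpace (Set P) := Flt Set.univ
    refine MeasurableSet.union (MeasurableSet.iUnion fun i => ?_) ?_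
    · exact ((hm _).inter (MeasurableSet.iInter fun j => (hm _).compl)).inter
        (MeasurableSet.const _)
    · exact (MeasurableSet.iInter fun j => (hm _).compl).inter (MeasurableSet.const _)
  · have e1 := Ev.all (ι := ℕ × ℕ) (fun x => ev_fun (P := P) (J := J)
      (fun l => Obj.cn (w l x.1 x.2)))
    have e2 := Ev.all (ι := ℕ) (fun n => ev_dense (P := P) (J := J)
      (fun l => {q | (∃ i, q ≤ w l n i) ∨
        ∀ x, (∃ k, R l n k x) → ¬ ∃ r, r ≤ q ∧ r ≤ x}))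
    refine (e1.and (e2.and (ev_up.and ev_dir))).mono
      fun M G ⟨h1, h2, hup, hdir⟩ l hl n ⟨p, hp, k, hk⟩ => ?_
    have hX : ∃ p k, R l n k p := ⟨p, k, hk⟩
    obtain ⟨hw1, hw2⟩ := hwv l n hX
    have h : ∃ i, w l n i ∈ G := by
      obtain ⟨s, hs, hs'⟩ := h2 n l hl (fun q => by
        by_cases hex : ∃ x, (∃ k, R l n k x) ∧ ∃ r, r ≤ q ∧ r ≤ x
        · obtain ⟨x, hx, r, hr1, hr2⟩ := hex
          obtain ⟨r', h3, i, h4⟩ := hw2 r ⟨x, hx, hr2⟩
          exact ⟨r', h3.trans hr1, Or.inl ⟨i, h4⟩⟩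
        · push Not at hex
          refine ⟨q, le_rfl, Or.inr ?_⟩
          rintro x hx ⟨r, hr1, hr2⟩
          exact hex x hx r hr1 hr2)
      rcases hs' with ⟨i, hi⟩ | hinc
      · exact ⟨i, hup s hs _ (h1 (n, i) l hl) hi⟩
      · obtain ⟨r, _, hr1, hr2⟩ := hdir s hs p hp
        exact absurd ⟨r, hr1, hr2⟩ (hinc p ⟨k, hk⟩)
    refine ⟨w l n (Nat.find h), Nat.find_spec h, ?_⟩
    have e : (if h : ∃ i, w l n i ∈ G then v l n (Nat.find h) else 0) = v l n (Nat.find h) :=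
      dif_pos h
    change R l n (if h : ∃ i, w l n i ∈ G then v l n (Nat.find h) else 0) (w l n (Nat.find h))
    rw [e]
    exact hw1 _

end Pool.Agent.CW
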