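import Pool.Agent.Lib.MP_e2257e_gt.B.Stmts

/-!
# MP_e2257e_gt : the real numbers of rich worlds
-/

set_option autoImplicit false

open Filter

namespace Pool.Agent.CW

open Pool.Agent.CR (V Fml Nm Memf Eqf Fr natN pairN val Mod nat rat cut Hull GenF RN mem_val
  Memf_mono)

namespace Real_

private theorem er_mem_of_lt {m n : ℕ} (h : m < n) : nat m ∈ nat n := by
  induction n with
  | zero => exact absurd h (Nat.not_lt_zero _)
  | succ n ih =>
    change nat m ∈ insert (nat n) (nat n)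
    rw [ZFSet.mem_insert_iff]
    rcases Nat.lt_succ_iff_lt_or_eq.1 h with h | h
    · exact Or.inr (ih h)
    · exact Or.inl (by rw [h])

private theorem er_nat_inj {m n : ℕ} (h : nat m = nat n) : m = n := by
  rcases lt_trichotomy m n with h1 | h1 | h1
  · have h2 := er_mem_of_lt h1
    rw [h] at h2
    exact absurd h2 (ZFSet.mem_irrefl _)
  · exact h1
  · have h2 := er_mem_of_lt h1
    rw [h] at h2
    exact absurd h2 (ZFSet.mem_irrefl _)

private theorem er_mem_cut {x : ℝ} {y : V} : y ∈ cut x ↔ ∃ n, rat n < x ∧ y = nat n := by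
  rw [cut, ZFSet.mem_range]
  constructor
  · rintro ⟨⟨m, hm⟩, h⟩
    exact ⟨m, hm, h.symm⟩
  · rintro ⟨n, h, rfl⟩
    exact ⟨⟨n, h⟩, rfl⟩

private theorem er_nat_mem_cut {x : ℝ} {n : ℕ} : nat n ∈ cut x ↔ rat n < x := by
  rw [er_mem_cut]
  constructor
  · rintro ⟨m, hm, h⟩
    rw [er_nat_inj h]
    exact hm
  · intro h
    exact ⟨n, h, rfl⟩

private theorem er_rat (q : ℚ) : ∃ n, rat n = q := by
  refine ⟨Nat.pair (Nat.pair q.num.toNat (-q.num).toNat) (q.den - 1), ?_⟩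
  unfold rat
  simp only [Nat.unpair_pair]
  have h1 : ((q.den - 1 : ℕ) : ℝ) + 1 = q.den := by
    have : q.den - 1 + 1 = q.den := Nat.succ_pred_eq_of_pos q.den_pos
    exact_mod_cast this
  have h2 : ((q.num.toNat : ℕ) : ℝ) - ((-q.num).toNat : ℕ) = q.num := by
    have : ((q.num.toNat : ℕ) : ℤ) - ((-q.num).toNat : ℕ) = q.num := by omega
    exact_mod_cast this
  rw [h1, h2]
  conv_rhs => rw [← Rat.num_div_den q]
  push_cast
  rfl

private theorem er_lt {x y : ℝ} (h : x < y) : ∃ n, x < rat n ∧ rat n < y := by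
  obtain ⟨q, h1, h2⟩ := exists_rat_btwn h
  obtain ⟨n, hn⟩ := er_rat q
  exact ⟨n, by rw [hn]; exact h1, by rw [hn]; exact h2⟩

private theorem er_sup {x : ℝ} {n0 : ℕ} (h : rat n0 < x) {A : ℕ → Prop} [DecidablePred A]
    (hA : ∀ n, A n ↔ rat n < x) : (⨆ n, if A n then rat n else rat n0) = x := by
  apply ciSup_eq_of_forall_le_of_forall_lt_exists_gt
  · intro n
    split_ifs with h1
    · exact ((hA n).1 h1).le
    · exact h.le
  · intro w hw
    obtain ⟨n, h1, h2⟩ := er_lt hw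
    refine ⟨n, ?_⟩
    rw [if_pos ((hA n).2 h2)]
    exact h1

/-- the real valued function given by answers -/
private noncomputable def er_fn {P : Type} (n0 : ℕ) (g : Set P → ℕ → ℕ) (G : Set P) : ℝ :=
  ⨆ n, if g G n = 1 then rat n else rat n0

private theorem er_fn_MR {P : Type} [Preorder P] (h5 : S_mr) (n0 : ℕ) {g : Set P → ℕ → ℕ}
    (hg : MF Set.univ g) : MR Set.univ (er_fn n0 g) := by
  rw [h5]
  unfold er_fn
  let _ : MeasurableSpace (Set P) := Flt (Set.univ : Set P)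
  refine Measurable.iSup fun n => ?_
  exact Measurable.ite (hg n 1) measurable_const measurable_const

private theorem ev_nmR (h3 : S_ms) (h5 : S_mr) (P J : Type) [Preorder P] (hc : CCC P) :
    Ev (fun (M : Set (Obj P J)) G => ∀ f, Obj.re f ∈ M → MR Set.univ f →
      nmR f ∈ HM M ∧ val (HM M) G (nmR f) = cut (f G)) := by
  refine ((ev_fun fun (l : List (Obj P J)) => match l with
      | [.re f] => .nm (nmR f)
      | _ => .nm Nm.emp).and
    ((Ev.all fun n : ℕ => h3 P J hc fun (l : List (Obj P J)) => match l with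
      | [.re f] => {G | rat n < f G}
      | _ => ∅).and ev_natN)).mono ?_
  rintro M G ⟨h1, h2, h4⟩ f hf hm
  have h6 : nmR f ∈ HM M := h1 [.re f] (by simp [hf])
  refine ⟨h6, ?_⟩
  apply ZFSet.ext
  intro x
  rw [mem_val, er_mem_cut]
  constructor
  · rintro ⟨⟨⟨p, n⟩, hb⟩, _, hb2, rfl⟩
    exact ⟨n, (h2 n [.re f] (by simp [hf])).2 p hb2 hb, (h4 n).2⟩
  · rintro ⟨n, hn, rfl⟩
    have hmeas : MS Set.univ {G : Set P | rat n < f G} := by
      have h7 := (h5 P Set.univ f).1 hm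
      exact h7 (measurableSet_Ioi (a := rat n))
    obtain ⟨p, hp1, hp2⟩ := (h2 n [.re f] (by simp [hf])).1 hmeas hn
    exact ⟨⟨(p, n), hp2⟩, (h4 n).1, hp1, (h4 n).2.symm⟩

/-- `p` forces the answer `k` to the question whether `n` is in the set named by `τ` -/
private def er_R {P J : Type} [Preorder P] (l : List (Obj P J)) (n k : ℕ) (p : P) : Prop :=
  match l with
  | [.nm τ] => (k = 1 ∧ Memf (natN P n) τ p) ∨ (k = 0 ∧ ∀ r ≤ p, ¬ Memf (natN P n) τ r)
  | _ => False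

private theorem ev_RN (h4 : S_read) (h5 : S_mr) (P J : Type) [Preorder P] (hc : CCC P) :
    Ev (fun (M : Set (Obj P J)) G => ∀ x ∈ RN (NM M G), ∃ f, Obj.re f ∈ M ∧ MR Set.univ f ∧
      f G = x) := by
  obtain ⟨Gd, hGd, hev⟩ := h4 P J hc er_R
  refine ((Ev.all fun n0 : ℕ => ev_fun fun (l : List (Obj P J)) => .re (er_fn n0 (Gd l))).and
    (hev.and ((Ev.all fun n : ℕ => ev_dense fun (l : List (Obj P J)) => {p | ∃ k, er_R l n k p}).and
      (ev_mem.and (ev_dir.and ev_natN))))).mono ?_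
  rintro M G ⟨h1, h2, h3, h6, h7, h8⟩ x hx
  obtain ⟨τ, hτ, hv⟩ := hx
  obtain ⟨n0, _, hn0⟩ := er_lt (sub_one_lt x)
  have hl : ∀ y ∈ [Obj.nm τ], y ∈ M := by
    intro y hy
    rw [List.mem_singleton] at hy
    rw [hy]
    exact hτ
  refine ⟨_, h1 n0 [.nm τ] hl, er_fn_MR h5 n0 (hGd _), ?_⟩
  have key : ∀ n, ∃ p ∈ G, er_R [Obj.nm (J := J) τ] n (Gd [.nm τ] G n) p := by
    intro n
    refine h2 [.nm τ] hl n ?_
    refine h3 n [.nm τ] hl ?_
    intro p
    by_cases h : ∃ r ≤ p, Memf (natN P n) τ r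
    · obtain ⟨r, hr, hr'⟩ := h
      exact ⟨r, hr, 1, Or.inl ⟨rfl, hr'⟩⟩
    · push Not at h
      exact ⟨p, le_rfl, 0, Or.inr ⟨rfl, h⟩⟩
  unfold er_fn
  refine er_sup hn0 fun n => ?_
  rw [← er_nat_mem_cut, ← hv, ← (h8 n).2, h6 _ (h8 n).1 _ hτ]
  obtain ⟨p, hp, hR⟩ := key n
  constructor
  · intro h
    rcases hR with ⟨_, hR⟩ | ⟨hR, _⟩
    · exact ⟨p, hp, hR⟩
    · rw [h] at hR
      exact absurd hR one_ne_zero
  · rintro ⟨p', hp', h⟩
    rcases hR with ⟨hR, _⟩ | ⟨_, hR⟩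
    · exact hR
    · obtain ⟨r, _, hr1, hr2⟩ := h7 p hp p' hp'
      exact absurd (Memf_mono h hr2) (hR r hr1)

end Real_

set_option linter.unusedVariables false in
theorem real_proof (h1 : S_decN) (h2 : S_ae) (h3 : S_ms) (h4 : S_read) (h5 : S_mr) :
    S_real := by
  intro P J _ hc
  exact (Real_.ev_nmR h3 h5 P J hc).and (Real_.ev_RN h4 h5 P J hc)

end Pool.Agent.CW
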