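import Pool.Agent.Lib.MP_e2257e_gt.B.Stmts

/-!
# MP_e2257e_gt : the functions from `ℕ` to `ℕ` of rich worlds
-/

set_option autoImplicit false

open Filter

namespace Pool.Agent.CW

open Pool.Agent.CR (V Fml Nm Memf Eqf Fr natN pairN val Mod nat rat cut Hull GenF RN mem_val)

namespace Seqs_

theorem mem_of_lt {m n : ℕ} (h : m < n) : nat m ∈ nat n := by
  induction n with
  | zero => exact absurd h (Nat.not_lt_zero _)
  | succ n ih =>
    change nat m ∈ insert (nat n) (nat n)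
    rw [ZFSet.mem_insert_iff]
    rcases Nat.lt_succ_iff_lt_or_eq.1 h with h | h
    · exact Or.inr (ih h)
    · exact Or.inl (by rw [h])

theorem nat_inj {m n : ℕ} (h : nat m = nat n) : m = n := by
  rcases lt_trichotomy m n with h1 | h1 | h1
  · have h2 := mem_of_lt h1
    rw [h] at h2
    exact absurd h2 (ZFSet.mem_irrefl _)
  · exact h1
  · have h2 := mem_of_lt h1
    rw [h] at h2
    exact absurd h2 (ZFSet.mem_irrefl _)

theorem mem_seqN {g : ℕ → ℕ} {x : V} :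
    x ∈ seqN g ↔ ∃ n, x = ZFSet.pair (nat n) (nat (g n)) := by
  rw [seqN, ZFSet.mem_range]
  constructor
  · rintro ⟨n, h⟩
    exact ⟨n, h.symm⟩
  · rintro ⟨n, h⟩
    exact ⟨n, h.symm⟩

theorem pair_mem_seqN {g : ℕ → ℕ} {n k : ℕ} :
    ZFSet.pair (nat n) (nat k) ∈ seqN g ↔ k = g n := by
  rw [mem_seqN]
  constructor
  · rintro ⟨m, h⟩
    obtain ⟨h1, h2⟩ := ZFSet.pair_injective h
    have h3 := nat_inj h1
    subst h3
    exact nat_inj h2
  · rintro rfl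
    exact ⟨n, rfl⟩

/-- the values of the names of pairs -/
theorem ev_pp {P J : Type} [Preorder P] : Ev (fun (M : Set (Obj P J)) G => ∀ n k : ℕ,
    opN (natN P n) (natN P k) ∈ HM M ∧
    val (HM M) G (opN (natN P n) (natN P k)) = ZFSet.pair (nat n) (nat k)) := by
  refine (ev_natN.and ev_opN).mono ?_
  rintro M G ⟨h1, h2⟩ n k
  obtain ⟨h3, h4⟩ := h2 _ (h1 n).1 _ (h1 k).1
  refine ⟨h3, ?_⟩
  rw [h4, (h1 n).2, (h1 k).2]

/-- first part -/
theorem part1 (h3 : S_ms) (P J : Type) [Preorder P] (hP : CCC P) :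
    Ev (fun (M : Set (Obj P J)) G =>
      ∀ g, Obj.fn g ∈ M → MF Set.univ g →
        nmF g ∈ HM M ∧ val (HM M) G (nmF g) = seqN (g G)) := by
  refine ((ev_fun fun (l : List (Obj P J)) => match l with
      | [.fn g] => .nm (nmF g)
      | _ => .nm Nm.emp).and
    ((Ev.all fun x : ℕ × ℕ => h3 P J hP fun (l : List (Obj P J)) => match l with
      | [.fn g] => {G | g G x.1 = x.2}
      | _ => ∅).and ev_pp)).mono ?_
  rintro M G ⟨a1, a2, a3⟩ g hg hm
  have h4 : nmF g ∈ HM M := a1 [.fn g] (by simp [hg])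
  refine ⟨h4, ?_⟩
  apply ZFSet.ext
  intro x
  rw [mem_val, mem_seqN]
  constructor
  · rintro ⟨⟨⟨p, n, k⟩, hb⟩, _, hb2, rfl⟩
    refine ⟨n, ?_⟩
    have h5 := (a2 (n, k) [.fn g] (by simp [hg])).2 p hb2 hb
    have h6 : g G n = k := h5
    rw [h6]
    exact (a3 n k).2
  · rintro ⟨n, rfl⟩
    obtain ⟨p, hp1, hp2⟩ := (a2 (n, g G n) [.fn g] (by simp [hg])).1 (hm n (g G n)) rfl
    exact ⟨⟨(p, n, g G n), hp2⟩, (a3 _ _).1, hp1, (a3 n (g G n)).2.symm⟩

/-- second part -/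
theorem part2 (h4 : S_read) (P J : Type) [Preorder P] (hP : CCC P) :
    Ev (fun (M : Set (Obj P J)) G =>
      ∀ g : ℕ → ℕ, seqN g ∈ NM M G → ∃ g', Obj.fn g' ∈ M ∧ MF Set.univ g' ∧ g' G = g) := by
  obtain ⟨Gd, hGd, hev⟩ := h4 P J hP (fun (l : List (Obj P J)) n k p => match l with
      | [.nm τ] => Memf (opN (natN P n) (natN P k)) τ p
      | _ => False)
  refine ((ev_fun fun (l : List (Obj P J)) => Obj.fn (Gd l)).and
    (hev.and (ev_mem.and ev_pp))).mono ?_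
  rintro M G ⟨a1, a2, a3, a4⟩ g ⟨τ, hτ, hv⟩
  have hl : ∀ x ∈ [Obj.nm τ], x ∈ M := by
    intro x hx
    rw [List.mem_singleton] at hx
    rw [hx]
    exact hτ
  refine ⟨Gd [.nm τ], a1 [.nm τ] hl, hGd _, ?_⟩
  funext n
  have hb : ∃ p ∈ G, ∃ k, Memf (opN (natN P n) (natN P k)) τ p := by
    have h5 : ZFSet.pair (nat n) (nat (g n)) ∈ val (HM M) G τ := by
      rw [hv]
      exact pair_mem_seqN.2 rfl
    rw [← (a4 n (g n)).2, a3 _ (a4 n (g n)).1 _ hτ] at h5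
    obtain ⟨p, hp, h6⟩ := h5
    exact ⟨p, hp, g n, h6⟩
  have h7 := a2 [.nm τ] hl n hb
  have h8 : val (HM M) G (opN (natN P n) (natN P (Gd [.nm τ] G n))) ∈ val (HM M) G τ :=
    (a3 _ (a4 _ _).1 _ hτ).2 h7
  rw [(a4 _ _).2, hv] at h8
  exact pair_mem_seqN.1 h8

end Seqs_

theorem seq_proof (_ : S_decN) (_ : S_ae) (h3 : S_ms) (h4 : S_read) : S_seq := by
  intro P J _ hP
  exact (Seqs_.part1 h3 P J hP).and (Seqs_.part2 h4 P J hP)

end Pool.Agent.CW
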