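import Pool.Agent.Lib.MP_e2257e_gt.B.GenP
import Pool.Agent.Lib.MP_e2257e_gt.B.Loc
import Pool.Agent.Lib.MP_e2257e_gt.B.Dec
import Pool.Agent.Lib.MP_e2257e_gt.B.DecN
import Pool.Agent.Lib.MP_e2257e_gt.B.Ae
import Pool.Agent.Lib.MP_e2257e_gt.B.Msw
import Pool.Agent.Lib.MP_e2257e_gt.B.Readw
import Pool.Agent.Lib.MP_e2257e_gt.B.Real
import Pool.Agent.Lib.MP_e2257e_gt.B.Seqs
import Pool.Agent.Lib.MP_e2257e_gt.B.Mr

/-!
# MP_e2257e_gt : ccc forcing and worlds (block B assembled)
-/

set_option autoImplicit false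

namespace Pool.Agent.CW

theorem p_loc : S_loc := loc_proof gen_proof

theorem p_dec : S_dec := dec_proof gen_proof p_loc

theorem p_decN : S_decN := decN_proof gen_proof p_loc p_dec

theorem p_ms : S_ms := ms_proof p_decN ae_proof

theorem p_real : S_real := real_proof p_decN ae_proof p_ms read_proof mr_proof

theorem p_seq : S_seq := seq_proof p_decN ae_proof p_ms read_proof

end Pool.Agent.CW
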