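import Pool.Agent.Lib.MP_72b52d_lc.CR.ZFC

/-!
# MP_e2257e_gt : ccc forcing over the ambient universe and countable worlds (definitions)

`P` is a preorder (a forcing notion), `Ω = Set P`.  Names of sets of natural numbers, reals, functions
are measurable functions of `G ∈ Ω`.  A property holds for `gen P`-almost all `G` if it holds for all
filters `G` which meet countably many given dense sets.
-/

set_option autoImplicit false

open Filter

namespace Pool.Agent.CW

open Pool.Agent.CR (V Fml Nm Memf Eqf Fr natN pairN val Mod nat rat cut Hull GenF RN)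

variable {P : Type} [Preorder P]

/-- the countable chain condition -/
def CCC (P : Type) [Preorder P] : Prop :=
  ∀ A : Set P, (∀ p ∈ A, ∀ q ∈ A, p ≠ q → ¬ ∃ r, r ≤ p ∧ r ≤ q) → A.Countable

/-- dense sets -/
def Dn (D : Set P) : Prop := ∀ p, ∃ q ≤ p, q ∈ D

/-- `G` is a filter which meets the sets in `𝒟`, upward closed as far as `C` is concerned -/
structure Suff (𝒟 : Set (Set P)) (C : Set P) (G : Set P) : Prop where
  ne : G.Nonempty
  dir : ∀ p ∈ G, ∀ q ∈ G, ∃ r ∈ G, r ≤ p ∧ r ≤ q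
  meets : ∀ D ∈ 𝒟, ∃ p ∈ G, p ∈ D
  up : ∀ c ∈ C, ∀ p ∈ G, p ≤ c → c ∈ G

theorem Suff.anti {𝒟 𝒟' : Set (Set P)} {C C' G : Set P} (h : Suff 𝒟 C G) (h1 : 𝒟' ⊆ 𝒟)
    (h2 : C' ⊆ C) : Suff 𝒟' C' G :=
  ⟨h.ne, h.dir, fun D hD => h.meets D (h1 hD), fun c hc => h.up c (h2 hc)⟩

/-- the filter of all properties of sufficiently generic filters -/
def gen (P : Type) [Preorder P] : Filter (Set P) where
  sets := {A | ∃ (𝒟 : Set (Set P)) (C : Set P), 𝒟.Countable ∧ C.Countable ∧ (∀ D ∈ 𝒟, Dn D) ∧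
    ∀ G, Suff 𝒟 C G → G ∈ A}
  univ_sets := ⟨∅, ∅, Set.countable_empty, Set.countable_empty, fun _ h => h.elim,
    fun _ _ => trivial⟩
  sets_of_superset := by
    rintro A B ⟨𝒟, C, h1, h2, h3, h4⟩ h
    exact ⟨𝒟, C, h1, h2, h3, fun G hG => h (h4 G hG)⟩
  inter_sets := by
    rintro A B ⟨𝒟, C, h1, h2, h3, h4⟩ ⟨𝒟', C', h1', h2', h3', h4'⟩
    refine ⟨𝒟 ∪ 𝒟', C ∪ C', h1.union h1', h2.union h2', ?_, fun G hG => ⟨?_, ?_⟩⟩
    · rintro D (hD | hD)
      · exact h3 D hD
      · exact h3' D hD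
    · exact h4 G (hG.anti Set.subset_union_left Set.subset_union_left)
    · exact h4' G (hG.anti Set.subset_union_right Set.subset_union_right)

/-- `p` forces that the generic filter is in `A` -/
def Frc (A : Set (Set P)) (p : P) : Prop := ∀ᶠ G in gen P, p ∈ G → G ∈ A

/-- the sigma-algebra generated by the conditions of `S` -/
@[reducible] def Flt (S : Set P) : MeasurableSpace (Set P) :=
  MeasurableSpace.generateFrom {A | ∃ p ∈ S, A = {G | p ∈ G}}

/-- `A` depends measurably on `G ∩ S` -/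
def MS (S : Set P) (A : Set (Set P)) : Prop := @MeasurableSet _ (Flt S) A

/-- names of functions from `ℕ` to `ℕ` depending on `G ∩ S` -/
def MF (S : Set P) (g : Set P → ℕ → ℕ) : Prop := ∀ n k, MS S {G | g G n = k}

/-- names of real numbers -/
def MR (S : Set P) (f : Set P → ℝ) : Prop := ∀ a : ℚ, MS S {G | f G < a}

/-- `S` is a complete suborder with the reduction `res` -/
structure Sub (S : Set P) (res : P → P) : Prop where
  mem : ∀ p, res p ∈ S
  le : ∀ p, p ≤ res p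
  mono : ∀ p q, p ≤ q → res p ≤ res q
  id : ∀ p ∈ S, res p ≤ p
  amal : ∀ p, ∀ q ∈ S, q ≤ res p → ∃ r, r ≤ p ∧ r ≤ q

/-! ### worlds -/

/-- objects: names, conditions, real functions, functions to `ℕ → ℕ`, levels, real numbers -/
inductive Obj (P J : Type) : Type 1
  | nm (τ : Nm P) : Obj P J
  | cn (p : P) : Obj P J
  | re (f : Set P → ℝ) : Obj P J
  | fn (g : Set P → ℕ → ℕ) : Obj P J
  | lv (j : J) : Obj P J
  | ix (r : ℝ) : Obj P J

variable {J : Type}

/-- the names in `M` -/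
def HM (M : Set (Obj P J)) : Set (Nm P) := {τ | Obj.nm τ ∈ M}

/-- the conditions in `M` -/
def QM (M : Set (Obj P J)) : Set P := {p | Obj.cn p ∈ M}

/-- the model -/
noncomputable def NM (M : Set (Obj P J)) (G : Set P) : Set V := Mod (HM M) G

/-- `M` is closed under the relations `Rel` and `G` is generic for the sets given by them -/
structure World (Rel : ℕ → List (Obj P J) → Obj P J → Prop) (M : Set (Obj P J)) (G : Set P) :
    Prop where
  cnt : M.Countable
  sub : ∀ p ∈ G, Obj.cn p ∈ M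
  ne : G.Nonempty
  up : ∀ p ∈ G, ∀ q, Obj.cn q ∈ M → p ≤ q → q ∈ G
  dir : ∀ p ∈ G, ∀ q ∈ G, ∃ r ∈ G, r ≤ p ∧ r ≤ q
  el : ∀ i l, (∀ x ∈ l, x ∈ M) → (∃ x, Rel i l x) → ∃ x ∈ M, Rel i l x
  gen : ∀ i l, (∀ x ∈ l, x ∈ M) → (∃ s ∈ G, Rel i l (.cn s)) ∨
    ∃ p ∈ G, ∀ s, Rel i l (.cn s) → ∀ r ≤ p, ¬ r ≤ s

/-- `C` holds in all sufficiently rich worlds -/
def Ev (C : Set (Obj P J) → Set P → Prop) : Prop :=
  ∃ Rel : ℕ → List (Obj P J) → Obj P J → Prop, ∀ M G, World Rel M G → C M G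

/-- the name of the ordered pair -/
def opN (σ τ : Nm P) : Nm P := pairN (pairN σ σ) (pairN σ τ)

/-- the name of the real number `f G` -/
def nmR (f : Set P → ℝ) : Nm P :=
  .mk {x : P × ℕ // Frc {G | rat x.2 < f G} x.1} (fun x => natN _ x.1.2) (fun x => x.1.1)

/-- a function from `ℕ` to `ℕ` as a set -/
noncomputable def seqN (g : ℕ → ℕ) : V :=
  ZFSet.range (fun n : ℕ => ZFSet.pair (nat n) (nat (g n)))

/-- the name of the function `g G` -/
def nmF (g : Set P → ℕ → ℕ) : Nm P :=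
  .mk {x : P × ℕ × ℕ // Frc {G | g G x.2.1 = x.2.2} x.1}
    (fun x => opN (natN _ x.1.2.1) (natN _ x.1.2.2)) (fun x => x.1.1)

end Pool.Agent.CW
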