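import Pool.Agent.Lib.MP_e2257e_gt.B.Defs
import Mathlib

/-!
# MP_e2257e_gt : sufficiently rich worlds
-/

set_option autoImplicit false

open Filter

namespace Pool.Agent.CW

variable {P J : Type} [Preorder P]

theorem Ev.mono {C C' : Set (Obj P J) → Set P → Prop} (h : Ev C) (h' : ∀ M G, C M G → C' M G) :
    Ev C' := by
  obtain ⟨Rel, hR⟩ := h
  exact ⟨Rel, fun M G hw => h' M G (hR M G hw)⟩

theorem Ev.all {ι : Type} [Countable ι] {C : ι → Set (Obj P J) → Set P → Prop}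
    (h : ∀ i, Ev (C i)) : Ev (fun M G => ∀ i, C i M G) := by
  classical
  choose Rel hR using h
  have := Encodable.ofCountable (ι × ℕ)
  refine ⟨fun n => match (Encodable.decode n : Option (ι × ℕ)) with
    | some x => Rel x.1 x.2
    | none => fun _ _ => False, fun M G hw i => hR i M G ⟨hw.cnt, hw.sub, hw.ne, hw.up, hw.dir,
      fun j l hl hx => ?_, fun j l hl => ?_⟩⟩
  · have h1 := hw.el (Encodable.encode (i, j)) l hl
    simp only [Encodable.encodek] at h1
    exact h1 hx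
  · have h1 := hw.gen (Encodable.encode (i, j)) l hl
    simp only [Encodable.encodek] at h1
    exact h1

theorem Ev.and {C C' : Set (Obj P J) → Set P → Prop} (h : Ev C) (h' : Ev C') :
    Ev (fun M G => C M G ∧ C' M G) := by
  have h1 := Ev.all (ι := Bool) (C := fun b => if b then C else C') (by
    intro b
    cases b
    · simpa using h'
    · simpa using h)
  exact h1.mono fun M G hb => ⟨by simpa using hb true, by simpa using hb false⟩

theorem ev_cnt : Ev (fun (M : Set (Obj P J)) _ => M.Countable) :=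
  ⟨fun _ _ _ => False, fun _ _ hw => hw.cnt⟩

theorem ev_ne : Ev (fun (_ : Set (Obj P J)) G => G.Nonempty) :=
  ⟨fun _ _ _ => False, fun _ _ hw => hw.ne⟩

theorem ev_sub : Ev (fun (M : Set (Obj P J)) G => ∀ p ∈ G, Obj.cn p ∈ M) :=
  ⟨fun _ _ _ => False, fun _ _ hw => hw.sub⟩

theorem ev_up : Ev (fun (M : Set (Obj P J)) G => ∀ p ∈ G, ∀ q, Obj.cn q ∈ M → p ≤ q → q ∈ G) :=
  ⟨fun _ _ _ => False, fun _ _ hw => hw.up⟩

theorem ev_dir : Ev (fun (_ : Set (Obj P J)) G => ∀ p ∈ G, ∀ q ∈ G, ∃ r ∈ G, r ≤ p ∧ r ≤ q) :=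
  ⟨fun _ _ _ => False, fun _ _ hw => hw.dir⟩

/-- closure of `M` under a relation -/
theorem ev_rel (R : List (Obj P J) → Obj P J → Prop) : Ev (fun M (_ : Set P) =>
    ∀ l, (∀ x ∈ l, x ∈ M) → (∃ x, R l x) → ∃ x ∈ M, R l x) :=
  ⟨fun _ => R, fun _ _ hw l hl hx => hw.el 0 l hl hx⟩

/-- closure of `M` under a function -/
theorem ev_fun (F : List (Obj P J) → Obj P J) : Ev (fun M (_ : Set P) =>
    ∀ l, (∀ x ∈ l, x ∈ M) → F l ∈ M) :=
  (ev_rel fun l x => x = F l).mono fun M z h l hl => by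
    obtain ⟨x, hx, rfl⟩ := h l hl ⟨_, rfl⟩
    exact hx

theorem ev_gen (S : List (Obj P J) → Set P) : Ev (fun M G => ∀ l, (∀ x ∈ l, x ∈ M) →
    (∃ s ∈ G, s ∈ S l) ∨ ∃ p ∈ G, ∀ s ∈ S l, ∀ r ≤ p, ¬ r ≤ s) := by
  refine ⟨fun _ l x => ∃ s ∈ S l, x = Obj.cn s, fun M G hw l hl => ?_⟩
  rcases hw.gen 0 l hl with ⟨s, h1, s', h2, h3⟩ | ⟨p, h1, h2⟩
  · rw [← Obj.cn.inj h3] at h2
    exact Or.inl ⟨s, h1, h2⟩
  · exact Or.inr ⟨p, h1, fun s hs r hr => h2 s ⟨s, hs, rfl⟩ r hr⟩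

theorem ev_dense (S : List (Obj P J) → Set P) : Ev (fun M G => ∀ l, (∀ x ∈ l, x ∈ M) →
    (∀ p, ∃ q ≤ p, q ∈ S l) → ∃ s ∈ G, s ∈ S l) := by
  refine (ev_gen S).mono fun M G h l hl hd => ?_
  rcases h l hl with h | ⟨p, _, h2⟩
  · exact h
  · obtain ⟨q, hq, hq'⟩ := hd p
    exact absurd le_rfl (h2 q hq' q hq)

/-- sets which are dense below an element of `G` are met by `G` -/
theorem ev_below (S : List (Obj P J) → Set P) : Ev (fun M G => ∀ l, (∀ x ∈ l, x ∈ M) →
    ∀ p ∈ G, (∀ q ≤ p, ∃ r ≤ q, r ∈ S l) → ∃ s ∈ G, s ≤ p ∧ s ∈ S l) := by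
  refine ((ev_gen (fun l : List (Obj P J) => match l with
    | .cn p :: l => {s : P | s ≤ p ∧ s ∈ S l}
    | _ => ∅)).and (ev_dir.and ev_sub)).mono fun M G ⟨h, hdir, hsub⟩ l hl p hp hd => ?_
  rcases h (.cn p :: l) (by
    intro x hx
    rcases List.mem_cons.1 hx with rfl | hx
    · exact hsub p hp
    · exact hl x hx) with ⟨s, h1, h2, h3⟩ | ⟨p', h1, h2⟩
  · exact ⟨s, h1, h2, h3⟩
  · obtain ⟨r, _, h4, h5⟩ := hdir p hp p' h1
    obtain ⟨r', h6, h7⟩ := hd r h4
    exact absurd le_rfl (h2 r' ⟨h6.trans h4, h7⟩ r' (h6.trans h5))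

/-! ### existence -/

/-- closure of a countable set under countably branching operations -/
theorem hull {X : Type*} (Op : List X → Set X) (hOp : ∀ l, (Op l).Countable) (A : Set X)
    (hA : A.Countable) :
    ∃ M : Set X, A ⊆ M ∧ M.Countable ∧ ∀ l : List X, (∀ x ∈ l, x ∈ M) → Op l ⊆ M := by
  let f : Set X → Set X := fun B => B ∪ ⋃ l : {l : List X // ∀ x ∈ l, x ∈ B}, Op l.1
  let B : ℕ → Set X := fun n => Nat.rec (motive := fun _ => Set X) A (fun _ B => f B) n
  have Bs : ∀ n, B (n + 1) = f (B n) := fun n => rfl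
  have hsub : ∀ n, B n ⊆ B (n + 1) := fun n => by rw [Bs]; exact Set.subset_union_left
  have hmono : Monotone B := monotone_nat_of_le_succ hsub
  have hc : ∀ n, (B n).Countable := by
    intro n
    induction n with
    | zero => exact hA
    | succ n ih =>
      rw [Bs]
      refine ih.union ?_
      have : Countable {l : List X // ∀ x ∈ l, x ∈ B n} := by
        have h1 : Countable {x : X // x ∈ B n} := ih.to_subtype
        have h2 : Function.Injective (fun l : {l : List X // ∀ x ∈ l, x ∈ B n} =>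
            (l.1.attach.map (fun x => (⟨x.1, l.2 x.1 x.2⟩ : {x : X // x ∈ B n})))) := by
          rintro ⟨l, hl⟩ ⟨l', hl'⟩ h
          have := congrArg (List.map Subtype.val) h
          simp only [List.map_map] at this
          have e : ∀ (l : List X) (hl : ∀ x ∈ l, x ∈ B n), List.map (Subtype.val ∘
              fun x : {x // x ∈ l} => (⟨x.1, hl x.1 x.2⟩ : {x : X // x ∈ B n})) l.attach = l := by
            intro l hl
            have : (Subtype.val ∘ fun x : {x // x ∈ l} => (⟨x.1, hl x.1 x.2⟩ : {x : X // x ∈ B n})) =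
              Subtype.val := rfl
            rw [this]; exact List.attach_map_subtype_val l
          rw [e, e] at this
          exact Subtype.ext this
        exact h2.countable
      exact Set.countable_iUnion fun l => hOp l.1
  refine ⟨⋃ n, B n, Set.subset_iUnion B 0, Set.countable_iUnion hc, ?_⟩
  intro l hl
  have : ∃ n, ∀ x ∈ l, x ∈ B n := by
    induction l with
    | nil => exact ⟨0, by simp⟩
    | cons a l ih =>
      obtain ⟨n, hn⟩ := ih fun x hx => hl x (List.mem_cons_of_mem _ hx)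
      obtain ⟨m, hm⟩ := Set.mem_iUnion.1 (hl a List.mem_cons_self)
      refine ⟨max m n, fun x hx => ?_⟩
      rcases List.mem_cons.1 hx with rfl | hx
      · exact hmono (le_max_left _ _) hm
      · exact hmono (le_max_right _ _) (hn x hx)
  obtain ⟨n, hn⟩ := this
  refine Set.Subset.trans ?_ (Set.subset_iUnion B (n + 1))
  rw [Bs]
  exact Set.Subset.trans (Set.subset_iUnion (fun l : {l : List X // ∀ x ∈ l, x ∈ B n} => Op l.1)
    ⟨l, hn⟩) Set.subset_union_right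

open Classical in
/-- the operations for a world -/
noncomputable def WOp (p0 : P) (Rel : ℕ → List (Obj P J) → Obj P J → Prop)
    (l : List (Obj P J)) : Set (Obj P J) :=
  Set.range (fun i => if h : ∃ x, Rel i l x then h.choose else .cn p0) ∪
  Set.range (fun i => if h : ∃ x : P × P, Rel i l.tail (.cn x.1) ∧
      ∃ p, l.head? = some (.cn p) ∧ x.2 ≤ p ∧ x.2 ≤ x.1 then .cn h.choose.1 else .cn p0) ∪
  Set.range (fun i => if h : ∃ x : P × P, Rel i l.tail (.cn x.1) ∧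
      ∃ p, l.head? = some (.cn p) ∧ x.2 ≤ p ∧ x.2 ≤ x.1 then .cn h.choose.2 else .cn p0)

theorem WOp_countable (p0 : P) (Rel : ℕ → List (Obj P J) → Obj P J → Prop)
    (l : List (Obj P J)) : (WOp p0 Rel l).Countable :=
  ((Set.countable_range _).union (Set.countable_range _)).union (Set.countable_range _)

theorem exists_world (Rel : ℕ → List (Obj P J) → Obj P J → Prop) (A : Set (Obj P J))
    (hA : A.Countable) (p0 : P) : ∃ M G, A ⊆ M ∧ p0 ∈ G ∧ World Rel M G := by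
  classical
  obtain ⟨M, h1, h2, h3⟩ := hull (WOp p0 Rel) (WOp_countable p0 Rel) (A ∪ {.cn p0})
    (hA.union (by simp))
  have hp0 : Obj.cn p0 ∈ M := h1 (Or.inr (by simp))
  -- the tasks
  let T := ℕ × {l : List (Obj P J) // ∀ x ∈ l, x ∈ M}
  have hMc : Countable {x // x ∈ M} := h2.to_subtype
  have hTc : Countable {l : List (Obj P J) // ∀ x ∈ l, x ∈ M} := by
    have h2 : Function.Injective (fun l : {l : List (Obj P J) // ∀ x ∈ l, x ∈ M} =>
        (l.1.attach.map (fun x => (⟨x.1, l.2 x.1 x.2⟩ : {x // x ∈ M})))) := by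
      rintro ⟨l, hl⟩ ⟨l', hl'⟩ h
      have := congrArg (List.map Subtype.val) h
      simp only [List.map_map] at this
      have e : ∀ (l : List (Obj P J)) (hl : ∀ x ∈ l, x ∈ M), List.map (Subtype.val ∘
          fun x : {x // x ∈ l} => (⟨x.1, hl x.1 x.2⟩ : {x // x ∈ M})) l.attach = l := by
        intro l hl
        have : (Subtype.val ∘ fun x : {x // x ∈ l} => (⟨x.1, hl x.1 x.2⟩ : {x // x ∈ M})) =
          Subtype.val := rfl
        rw [this]; exact List.attach_map_subtype_val l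
      rw [e, e] at this
      exact Subtype.ext this
    exact h2.countable
  have : Nonempty T := ⟨(0, ⟨[], by simp⟩)⟩
  obtain ⟨e, he⟩ := exists_surjective_nat T
  -- one step
  have step : ∀ (p : {p : P // Obj.cn p ∈ M}) (t : T), ∃ p' : {p : P // Obj.cn p ∈ M},
      p'.1 ≤ p.1 ∧ ((∃ s, Obj.cn s ∈ M ∧ Rel t.1 t.2.1 (.cn s) ∧ p'.1 ≤ s) ∨
        ∀ s, Rel t.1 t.2.1 (.cn s) → ∀ r ≤ p'.1, ¬ r ≤ s) := by
    rintro ⟨p, hp⟩ ⟨i, l, hl⟩
    by_cases h : ∃ x : P × P, Rel i (Obj.cn p :: l).tail (.cn x.1) ∧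
      ∃ p', (Obj.cn p :: l).head? = some (.cn p') ∧ x.2 ≤ p' ∧ x.2 ≤ x.1
    · have hs := h.choose_spec
      have hl' : ∀ x ∈ Obj.cn p :: l, x ∈ M := by
        intro x hx
        rcases List.mem_cons.1 hx with rfl | hx
        · exact hp
        · exact hl x hx
      have m1 : Obj.cn h.choose.1 ∈ M := h3 (.cn p :: l) hl' (Or.inl (Or.inr ⟨i, by
        simp only []; rw [dif_pos h]⟩))
      have m2 : Obj.cn h.choose.2 ∈ M := h3 (.cn p :: l) hl' (Or.inr ⟨i, by
        simp only []; rw [dif_pos h]⟩)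
      obtain ⟨a1, p', a2, a3, a4⟩ := hs
      have hpp : p' = p := by
        have : some (Obj.cn p) = some (Obj.cn p' : Obj P J) := a2
        exact (Obj.cn.inj (Option.some.inj this)).symm
      subst hpp
      exact ⟨⟨h.choose.2, m2⟩, a3, Or.inl ⟨h.choose.1, m1, a1, a4⟩⟩
    · refine ⟨⟨p, hp⟩, le_rfl, Or.inr fun s hs r hr hrs => ?_⟩
      exact h ⟨(s, r), hs, p, rfl, hr, hrs⟩
  choose f hf1 hf2 using step
  let q : ℕ → {p : P // Obj.cn p ∈ M} := fun n =>
    Nat.rec (motive := fun _ => {p : P // Obj.cn p ∈ M}) ⟨p0, hp0⟩ (fun n p => f p (e n)) n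
  have qs : ∀ n, q (n + 1) = f (q n) (e n) := fun n => rfl
  have qle : ∀ n, (q (n + 1)).1 ≤ (q n).1 := fun n => by rw [qs]; exact hf1 _ _
  have qanti : ∀ m n, m ≤ n → (q n).1 ≤ (q m).1 := by
    intro m n h
    induction h with
    | refl => exact le_rfl
    | step _ ih => exact (qle _).trans ih
  let G : Set P := {p | Obj.cn p ∈ M ∧ ∃ n, (q n).1 ≤ p}
  refine ⟨M, G, Set.subset_union_left.trans h1, ⟨hp0, 0, le_rfl⟩, h2, fun p hp => hp.1,
    ⟨p0, hp0, 0, le_rfl⟩, ?_, ?_, ?_, ?_⟩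
  · rintro p ⟨_, n, hn⟩ r hr hpr
    exact ⟨hr, n, hn.trans hpr⟩
  · rintro p ⟨_, n, hn⟩ r ⟨_, m, hm⟩
    exact ⟨(q (max n m)).1, ⟨(q (max n m)).2, _, le_rfl⟩,
      (qanti _ _ (le_max_left _ _)).trans hn, (qanti _ _ (le_max_right _ _)).trans hm⟩
  · intro i l hl hx
    refine ⟨hx.choose, h3 l hl (Or.inl (Or.inl ⟨i, ?_⟩)), hx.choose_spec⟩
    exact dif_pos hx
  · intro i l hl
    obtain ⟨n, hn⟩ := he (i, ⟨l, hl⟩)
    have h4 := hf2 (q n) (e n)
    rw [← qs, hn] at h4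
    rcases h4 with ⟨s, h4, h5, h6⟩ | h4
    · exact Or.inl ⟨s, ⟨h4, n + 1, h6⟩, h5⟩
    · exact Or.inr ⟨(q (n + 1)).1, ⟨(q (n + 1)).2, n + 1, le_rfl⟩, h4⟩

/-- sufficiently rich worlds exist -/
theorem Ev.exists {C : Set (Obj P J) → Set P → Prop} (h : Ev C) (A : Set (Obj P J))
    (hA : A.Countable) (p0 : P) : ∃ M G, A ⊆ M ∧ p0 ∈ G ∧ C M G := by
  obtain ⟨Rel, hR⟩ := h
  obtain ⟨M, G, h1, h2, h3⟩ := exists_world Rel A hA p0
  exact ⟨M, G, h1, h2, hR M G h3⟩

end Pool.Agent.CW
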