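import Pool.Agent.Lib.MP_e2257e_gt.B.Stmts

/-!
# MP_e2257e_gt : the filter of the properties of sufficiently generic filters
-/

set_option autoImplicit false

open Filter

namespace Pool.Agent.CW

variable {P : Type} [Preorder P]

/-- countable intersections -/
private theorem genP_inter : CountableInterFilter (gen P) := by
  refine ⟨fun S hSc hS => ?_⟩
  have h : ∀ A : {A // A ∈ S}, ∃ (𝒟 : Set (Set P)) (C : Set P), 𝒟.Countable ∧ C.Countable ∧
      (∀ D ∈ 𝒟, Dn D) ∧ ∀ G, Suff 𝒟 C G → G ∈ A.1 := fun A => hS A.1 A.2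
  choose 𝒟 C h1 h2 h3 h4 using h
  have : Countable {A // A ∈ S} := hSc.to_subtype
  refine ⟨⋃ A, 𝒟 A, ⋃ A, C A, Set.countable_iUnion h1, Set.countable_iUnion h2, ?_, ?_⟩
  · intro D hD
    obtain ⟨A, hA⟩ := Set.mem_iUnion.1 hD
    exact h3 A D hA
  · intro G hG A hA
    exact h4 ⟨A, hA⟩ G (hG.anti (Set.subset_iUnion 𝒟 ⟨A, hA⟩) (Set.subset_iUnion C ⟨A, hA⟩))

/-- Rasiowa-Sikorski -/
private theorem genP_rs (A : Set (Set P)) (hA : ∀ᶠ G in gen P, G ∈ A) (p : P) :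
    ∃ G, p ∈ G ∧ G ∈ A := by
  obtain ⟨𝒟, C, h1, -, h3, h4⟩ := hA
  have key : ∃ G : Set P, p ∈ G ∧ Suff 𝒟 C G := by
    have hE : ∃ E : ℕ → Set P, (∀ n, Dn (E n)) ∧ ∀ D ∈ 𝒟, ∃ n, E n = D := by
      rcases 𝒟.eq_empty_or_nonempty with h | h
      · subst h
        exact ⟨fun _ => Set.univ, fun _ q => ⟨q, le_rfl, trivial⟩, fun D hD => hD.elim⟩
      · obtain ⟨f, hf⟩ := h1.exists_eq_range h
        refine ⟨f, fun n => h3 _ (hf ▸ Set.mem_range_self n), fun D hD => ?_⟩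
        rw [hf] at hD
        exact hD
    obtain ⟨E, hE1, hE2⟩ := hE
    choose f hf1 hf2 using hE1
    let q : ℕ → P := fun n => Nat.rec p (fun n r => f n r) n
    have hq0 : q 0 = p := rfl
    have hqs : ∀ n, q (n + 1) = f n (q n) := fun n => rfl
    have hanti : ∀ m n, m ≤ n → q n ≤ q m := by
      intro m n hmn
      induction hmn with
      | refl => exact le_rfl
      | step h ih =>
        rename_i k
        exact ((hqs k).le.trans (hf1 k (q k))).trans ih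
    refine ⟨{r | ∃ n, q n ≤ r}, ⟨0, hq0.le⟩, ⟨p, 0, hq0.le⟩, ?_, ?_, ?_⟩
    · rintro a ⟨m, hm⟩ b ⟨n, hn⟩
      refine ⟨q (max m n), ⟨max m n, le_rfl⟩, ?_, ?_⟩
      · exact (hanti _ _ (le_max_left _ _)).trans hm
      · exact (hanti _ _ (le_max_right _ _)).trans hn
    · intro D hD
      obtain ⟨n, hn⟩ := hE2 D hD
      refine ⟨q (n + 1), ⟨n + 1, le_rfl⟩, ?_⟩
      rw [hqs, ← hn]
      exact hf2 n (q n)
    · rintro c - r ⟨n, hn⟩ hrc
      exact ⟨n, hn.trans hrc⟩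
  obtain ⟨G, hG1, hG2⟩ := key
  exact ⟨G, hG1, h4 G hG2⟩

theorem gen_proof : S_gen := by
  intro P _
  refine ⟨genP_inter, genP_rs, ?_, ?_, ?_, ?_⟩
  · intro D hD
    refine ⟨{D}, ∅, Set.countable_singleton D, Set.countable_empty, ?_, ?_⟩
    · rintro D' rfl
      exact hD
    · intro G hG
      exact hG.meets D rfl
  · intro p q hpq
    refine ⟨∅, {q}, Set.countable_empty, Set.countable_singleton q, fun _ h => h.elim, ?_⟩
    intro G hG hp
    exact hG.up q rfl p hp hpq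
  · exact ⟨∅, ∅, Set.countable_empty, Set.countable_empty, fun _ h => h.elim,
      fun G hG => hG.dir⟩
  · exact ⟨∅, ∅, Set.countable_empty, Set.countable_empty, fun _ h => h.elim,
      fun G hG => hG.ne⟩

end Pool.Agent.CW
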