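import Pool.Agent.Lib.MP_e2257e_gt.B.EvZFC

/-!
# MP_e2257e_gt : ccc forcing and countable worlds (statements of the pieces of block B)

Every `S_...` is a proposition; a piece `X` consists of a theorem `X_proof : ... → S_X` in its own
file `Pool/Agent/Lib/MP_e2257e_gt/B/X.lean`, which imports this file; other pieces may be used as
hypotheses (` (h : S_gen)` etc.).
-/

set_option autoImplicit false

open Filter

namespace Pool.Agent.CW

open Pool.Agent.CR (V Fml Nm Memf Eqf Fr natN pairN val Mod nat rat cut Hull GenF RN)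

/-- (B1) The filter `gen P`.
Proof: countable intersections: unions of the countable families.  The second part (Rasiowa-Sikorski):
given `𝒟`, `C` and `p`, take an enumeration of `𝒟` and a decreasing sequence `q n`, `q 0 = p`,
`q (n+1) ≤ q n` below an element of the `n`-th dense set, `G = {r | ∃ n, q n ≤ r}`.  The other parts are
immediate (take `𝒟 = {D}`, or `C = {q}`). -/
def S_gen : Prop := ∀ (P : Type) [Preorder P],
  CountableInterFilter (gen P) ∧
  (∀ A : Set (Set P), (∀ᶠ G in gen P, G ∈ A) → ∀ p, ∃ G, p ∈ G ∧ G ∈ A) ∧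
  (∀ D : Set P, Dn D → ∀ᶠ G in gen P, ∃ p ∈ G, p ∈ D) ∧
  (∀ p q : P, p ≤ q → ∀ᶠ G in gen P, p ∈ G → q ∈ G) ∧
  (∀ᶠ G in gen P, ∀ p ∈ G, ∀ q ∈ G, ∃ r ∈ G, r ≤ p ∧ r ≤ q) ∧ ∀ᶠ G in gen P, G.Nonempty

/-- (B2) Locality.
Proof: first part: by Zorn take a maximal set `W` of pairwise incompatible elements of
`{r | r ≤ p ∧ Frc A r}`; `W` is countable.  `D = {q | (∃ w ∈ W, q ≤ w) ∨ ¬ ∃ r, r ≤ q ∧ r ≤ p}` is
dense.  Almost every `G` meets `D`, is directed, contains `w ∈ W` if it contains an extension of `w`,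
and `w ∈ G → G ∈ A` for all `w ∈ W` (countable intersection).  If `p ∈ G` then the element of `G ∩ D` is
compatible with `p`, so it is below some `w ∈ W`, so `G ∈ A`.  Second part: the same with `W` a maximal
antichain in `{r | Frc A r}` and `D = {q | ∃ w ∈ W, q ≤ w}`. -/
def S_loc : Prop := ∀ (P : Type) [Preorder P], CCC P →
  (∀ (A : Set (Set P)) (p : P), (∀ q ≤ p, ∃ r ≤ q, Frc A r) → Frc A p) ∧
  ∀ A : Set (Set P), (∀ p : P, ∃ q ≤ p, Frc A q) → ∀ᶠ G in gen P, G ∈ A

/-- (B3) Decision of measurable sets by conditions of a complete suborder.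
Proof: induction on the generation of the sigma-algebra.  Generator `{G | p0 ∈ G}`, `p0 ∈ S`: if there
is `r` below `p` and `p0` take `q = res r` (`res r ≤ res p ≤ p`, `res r ≤ p0`, `Frc` by `S_gen`),
otherwise `q = p` and `Frc` of the complement since `G` is directed.  Complement: clear.  Union of
`A n`: if some `q ≤ p` in `S` has `Frc (A n) q` for some `n`, done (monotonicity).  Otherwise `Frc (A n)ᶜ p` for
every `n` by `S_loc`: for `q ≤ p` (in `P`), `res q ≤ p`, there is `q' ∈ S`, `q' ≤ res q` with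
`Frc (A n)ᶜ q'`, and `q'` is compatible with `q` (`amal`).  Then `Frc (⋃ n, A n)ᶜ p`. -/
def S_dec : Prop := ∀ (P : Type) [Preorder P], CCC P → ∀ (S : Set P) (res : P → P), Sub S res →
  ∀ A, MS S A → ∀ p ∈ S, ∃ q ∈ S, q ≤ p ∧ (Frc A q ∨ Frc Aᶜ q)

/-- (B4) Decision of natural numbers, and consequences for `S = univ`.
Proof: (1) if no `q ≤ p` in `S` and `k` work then by `S_dec` (and `S_loc`, as in B3) `Frc {G | g G n = k}ᶜ p`
for all `k`, so `Frc ∅ p`, impossible by `S_gen`.  (2), (3): `S_dec` for `S = univ`, `res = id`; note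
that `Frc A q` and `Frc Aᶜ q` together are impossible.  (3): if `¬ Frc A p`, then by `S_loc` there is
`q ≤ p` such that no `r ≤ q` has `Frc A r`; decide `A` below `q`. -/
def S_decN : Prop := ∀ (P : Type) [Preorder P], CCC P →
  (∀ (S : Set P) (res : P → P), Sub S res → ∀ g, MF S g → ∀ n, ∀ p ∈ S, ∃ q ∈ S, q ≤ p ∧
    ∃ k, Frc {G | g G n = k} q) ∧
  (∀ A, MS Set.univ A → ∀ p : P, ∃ q ≤ p, Frc A q ∨ Frc Aᶜ q) ∧
  (∀ A, MS Set.univ A → ∀ p : P, ¬ Frc A p → ∃ q ≤ p, Frc Aᶜ q) ∧
  (∀ (A : Set (Set P)) (p : P), Frc A p → Frc Aᶜ p → False) ∧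
  (∀ (A : Set (Set P)) (p q : P), q ≤ p → Frc A p → Frc A q)

/-- (B5) In rich worlds `G` has the almost sure properties.
Proof: for every `l` with `∀ᶠ G in gen P, G ∈ S l` choose countable `𝒟`, `C` as in the definition of
`gen`; enumerate them as `D l n`, `c l n` (`D l n = univ` and `c l n` = an element of `P` if needed).
Use `ev_dense` for `D l n` and `ev_fun` for `c l n` (so that `c l n ∈ M`, `ev_up`), for all `n`
(`Ev.all`), and `ev_dir`, `ev_ne`. -/
def S_ae : Prop := ∀ (P J : Type) [Preorder P] (S : List (Obj P J) → Set (Set P)),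
  Ev (fun (M : Set (Obj P J)) G => ∀ l, (∀ x ∈ l, x ∈ M) → (∀ᶠ G' in gen P, G' ∈ S l) → G ∈ S l)

/-- (B6) Measurable sets in rich worlds.
Proof: (1) `ev_dense` for `{p | Frc (S l) p ∨ Frc (S l)ᶜ p}` (dense by `S_decN` (2)) gives such a
`p ∈ G`; if `Frc (S l)ᶜ p`, then `S_ae` for `{G' | p ∈ G' → G' ∈ (S l)ᶜ}` (parameter list
`.cn p :: l`) contradicts `G ∈ S l`.  (2) `S_ae` for `{G' | p ∈ G' → G' ∈ S l}` with the list
`.cn p :: l`. -/
def S_ms : Prop := ∀ (P J : Type) [Preorder P], CCC P → ∀ S : List (Obj P J) → Set (Set P),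
  Ev (fun (M : Set (Obj P J)) G => ∀ l, (∀ x ∈ l, x ∈ M) →
    (MS Set.univ (S l) → G ∈ S l → ∃ p ∈ G, Frc (S l) p) ∧
    ∀ p ∈ G, Frc (S l) p → G ∈ S l)

/-- (B7) Reading: `R l n k p` means that `p` forces `k` to be an answer to the question `n`; `Gd l` is
a name of a function which gives right answers whenever there are any.
Proof: for `l`, `n` let `X = {p | ∃ k, R l n k p}`; by Zorn and ccc there is a countable `W ⊆ X` such
that every extension of an element of `X` is compatible with an element of `W` (a maximal antichain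
`A` in the downward closure of `X`, and for each `a ∈ A` an element of `X` above `a`).  Enumerate
`W = {w l n i}` (if `X` is nonempty) with `R l n (v l n i) (w l n i)`;
`Gd l G n = v l n i` for the least `i` with `w l n i ∈ G` (`0` if there is none; everything is
countable, so this is measurable).  World: `w l n i ∈ M` by `ev_fun` (`Ev.all` over `n, i`).  If `p ∈ G`,
`p ∈ X`, then by `ev_dense` `G` meets the dense set of all `q` which are below some `w l n i` or
incompatible with all elements of `X`; by directedness the second alternative is impossible, so some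
`w l n i ∈ G` (`ev_up`). -/
def S_read : Prop := ∀ (P J : Type) [Preorder P], CCC P →
  ∀ R : List (Obj P J) → ℕ → ℕ → P → Prop, ∃ Gd : List (Obj P J) → Set P → ℕ → ℕ,
    (∀ l, MF Set.univ (Gd l)) ∧
    Ev (fun (M : Set (Obj P J)) G => ∀ l, (∀ x ∈ l, x ∈ M) → ∀ n, (∃ p ∈ G, ∃ k, R l n k p) →
      ∃ p ∈ G, R l n (Gd l G n) p)

/-- (B8) The real numbers of rich worlds (compare CR/EvReal.lean, `ev_nmR`, `ev_RN_of`, `ev_RN`).
Proof: (1) as in CR (`er_...` lemmas there are private: copy them), with `S_ms` instead of `ev_ms`.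
(2) `S_read` with `R [.nm τ] n k p := (k = 1 ∧ Memf (natN P n) τ p) ∨ (k = 0 ∧ ∀ r ≤ p,
¬ Memf (natN P n) τ r)` (for every `n` such `p` are dense), `f G = ⨆ n, if Gd l G n = 1 then rat n else
rat n0` (for every `n0`, `Ev.all`), `ev_mem` (in B/EvZFC). -/
def S_real : Prop := ∀ (P J : Type) [Preorder P], CCC P →
  Ev (fun (M : Set (Obj P J)) G =>
    (∀ f, Obj.re f ∈ M → MR Set.univ f → nmR f ∈ HM M ∧ val (HM M) G (nmR f) = cut (f G)) ∧
    ∀ x ∈ RN (NM M G), ∃ f, Obj.re f ∈ M ∧ MR Set.univ f ∧ f G = x)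

/-- (B9) The functions from `ℕ` to `ℕ` of rich worlds.
Proof: (1) as B8 (1), with `ev_opN`, `ev_natN`.  (2) `seqN g = val τ`: `S_read` with
`R [.nm τ] n k p := Memf (opN (natN P n) (natN P k)) τ p`, `ĝ = Gd [.nm τ]`; `ev_mem`,
`ZFSet.pair_injective`, injectivity of `nat`. -/
def S_seq : Prop := ∀ (P J : Type) [Preorder P], CCC P →
  Ev (fun (M : Set (Obj P J)) G =>
    (∀ g, Obj.fn g ∈ M → MF Set.univ g → nmF g ∈ HM M ∧ val (HM M) G (nmF g) = seqN (g G)) ∧
    ∀ g : ℕ → ℕ, seqN g ∈ NM M G → ∃ g', Obj.fn g' ∈ M ∧ MF Set.univ g' ∧ g' G = g)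

/-- (B10) Measurable real functions.
Proof: compare `MR.measurable`, `MR.of_measurable` in CR/Cohen.lean (rational rays generate the Borel
sets). -/
def S_mr : Prop := ∀ (P : Type) [Preorder P] (S : Set P) (f : Set P → ℝ),
  MR S f ↔ @Measurable _ _ (Flt S) _ f

end Pool.Agent.CW
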